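import Mathlib
import Pool.Agent.H16.PR.H

set_option autoImplicit false
open MeasureTheory Set Filter Topology
open scoped RealInnerProductSpace

/-!
Minimal volume of polar projection bodies of origin-symmetric convex bodies: products of bodies,
and the behaviour of the minimum as the dimension grows (helper16).
-/

namespace Pool.Agent.Results.MP_48ea53_gt.ProductsAndLimit

/-- An origin-symmetric convex body in `ℝⁿ`. -/
def IsSymmBody {n : ℕ} (K : Set (EuclideanSpace ℝ (Fin n))) : Prop :=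
  Convex ℝ K ∧ IsCompact K ∧ (interior K).Nonempty ∧ ∀ x ∈ K, -x ∈ K

/-- `vol_{n-1}(K | u^⊥)` for a unit vector `u`: the `(n-1)`-dimensional Lebesgue measure
(normalised Hausdorff measure) of the orthogonal projection of `K` to `u^⊥`. -/
noncomputable def projVol {n : ℕ} (K : Set (EuclideanSpace ℝ (Fin n)))
    (u : EuclideanSpace ℝ (Fin n)) : ℝ :=
  (μHE[n - 1] ((fun x : EuclideanSpace ℝ (Fin n) => x - ⟪u, x⟫ • u) '' K)).toReal

/-- `P` is the projection body `Π K`: the convex body whose support function on the unit sphere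
is `u ↦ vol_{n-1}(K | u^⊥)`. -/
def IsProjBody {n : ℕ} (K P : Set (EuclideanSpace ℝ (Fin n))) : Prop :=
  Convex ℝ P ∧ IsCompact P ∧ (interior P).Nonempty ∧
    ∀ u : EuclideanSpace ℝ (Fin n), ‖u‖ = 1 → sSup ((fun y => ⟪u, y⟫) '' P) = projVol K u

/-- The polar of a set. -/
def polar {n : ℕ} (P : Set (EuclideanSpace ℝ (Fin n))) : Set (EuclideanSpace ℝ (Fin n)) :=
  {x | ∀ y ∈ P, ⟪x, y⟫ ≤ 1}

/-- `Φ(K) = |K|^{n-1} |Π° K|`, where `P = Π K`. -/
noncomputable def Phi {n : ℕ} (K P : Set (EuclideanSpace ℝ (Fin n))) : ℝ :=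
  (volume K).toReal ^ (n - 1) * (volume (polar P)).toReal

/-- `c_n = inf Φ(K)` over origin-symmetric convex bodies in `ℝⁿ`. -/
noncomputable def c (n : ℕ) : ℝ :=
  sInf {t | ∃ K P : Set (EuclideanSpace ℝ (Fin n)), IsSymmBody K ∧ IsProjBody K P ∧ t = Phi K P}

/-- The product `K × L` in `ℝ^{a+b}`. -/
def prodBody {a b : ℕ} (K : Set (EuclideanSpace ℝ (Fin a))) (L : Set (EuclideanSpace ℝ (Fin b))) :
    Set (EuclideanSpace ℝ (Fin (a + b))) :=
  {z | WithLp.toLp 2 (fun i : Fin a => z (Fin.castAdd b i)) ∈ K ∧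
    WithLp.toLp 2 (fun j : Fin b => z (Fin.natAdd a j)) ∈ L}

/-- Origin-centred parallelepipeds: linear images of the cube `[-1,1]ⁿ`. -/
def IsParallelepiped {n : ℕ} (K : Set (EuclideanSpace ℝ (Fin n))) : Prop :=
  ∃ T : EuclideanSpace ℝ (Fin n) ≃ₗ[ℝ] EuclideanSpace ℝ (Fin n), K = T '' {x | ∀ i, |x i| ≤ 1}

/-- The bodies obtained from origin-symmetric convex bodies of dimension one, two or three by
products and invertible linear maps, in any order and any number of times. -/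
inductive LowClass : (n : ℕ) → Set (EuclideanSpace ℝ (Fin n)) → Prop
  | low (n : ℕ) (K : Set (EuclideanSpace ℝ (Fin n))) : 0 < n → n ≤ 3 → IsSymmBody K → LowClass n K
  | prod (a b : ℕ) (K : Set (EuclideanSpace ℝ (Fin a))) (L : Set (EuclideanSpace ℝ (Fin b))) :
      LowClass a K → LowClass b L → LowClass (a + b) (prodBody K L)
  | map (n : ℕ) (K : Set (EuclideanSpace ℝ (Fin n)))
      (T : EuclideanSpace ℝ (Fin n) ≃L[ℝ] EuclideanSpace ℝ (Fin n)) :
      LowClass n K → LowClass n (T '' K)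

open Pool.Agent.H16.PR in
theorem low_cls (n : ℕ) (K : Set (EuclideanSpace ℝ (Fin n))) (h : LowClass n K) : Cls n K := by
  induction h with
  | low n K h1 h2 h3 => exact Cls.low n K h1 h2 h3
  | prod a b K L _ _ h1 h2 => exact Cls.prod a b K L h1 h2
  | map n K T _ h1 => exact Cls.map n K T h1

/-- **Result.** (1) `n! Φ` is multiplicative on products. (2) The bodies generated by the bodies of
dimension at most three under products and linear maps satisfy `Φ(K) ≥ 2ⁿ/n!`, with equality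
exactly for parallelepipeds. (3) `n! c_n` is submultiplicative. (4) If `c_m = 2^m/m!`, then
`c_n = 2ⁿ/n!` for all `n ≤ m`. (5) `(n! c_n)^{1/n}` converges to a limit `l` in `[π/√e, 2]`,
`c_n ≥ lⁿ/n!` for all `n`, and `l = 2` exactly when `c_n = 2ⁿ/n!` for all `n`. -/
theorem result :
    (∀ a b : ℕ, 0 < a → 0 < b → ∀ (K P : Set (EuclideanSpace ℝ (Fin a)))
      (L Q : Set (EuclideanSpace ℝ (Fin b))) (R : Set (EuclideanSpace ℝ (Fin (a + b)))),
      IsSymmBody K → IsSymmBody L → IsProjBody K P → IsProjBody L Q →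
      IsProjBody (prodBody K L) R →
      ((a + b).factorial : ℝ) * Phi (prodBody K L) R =
        ((a.factorial : ℝ) * Phi K P) * ((b.factorial : ℝ) * Phi L Q)) ∧
    (∀ (n : ℕ) (K : Set (EuclideanSpace ℝ (Fin n))), LowClass n K →
      IsSymmBody K ∧ (∃ P, IsProjBody K P) ∧ ∀ P, IsProjBody K P →
        (2 : ℝ) ^ n / n.factorial ≤ Phi K P ∧
        (Phi K P = (2 : ℝ) ^ n / n.factorial ↔ IsParallelepiped K)) ∧
    (∀ a b : ℕ, 0 < a → 0 < b → ((a + b).factorial : ℝ) * c (a + b) ≤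
      ((a.factorial : ℝ) * c a) * ((b.factorial : ℝ) * c b)) ∧
    (∀ n m : ℕ, 0 < n → n ≤ m → c m = (2 : ℝ) ^ m / m.factorial →
      c n = (2 : ℝ) ^ n / n.factorial) ∧
    ∃ l : ℝ, Real.pi / √(Real.exp 1) ≤ l ∧ l ≤ 2 ∧
      Tendsto (fun n : ℕ => ((n.factorial : ℝ) * c n) ^ ((n : ℝ)⁻¹)) atTop (𝓝 l) ∧
      (∀ n : ℕ, 0 < n → l ^ n / n.factorial ≤ c n) ∧
      (l = 2 ↔ ∀ n : ℕ, 0 < n → c n = (2 : ℝ) ^ n / n.factorial) := by
  refine ⟨?_, ?_, ?_, ?_, ?_⟩
  · intro a b ha hb K P L Q R hK hL hP hQ hR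
    exact Pool.Agent.H16.PR.phi_prod ha hb K P L Q R hK hL hP hQ hR
  · intro n K h
    have h' := low_cls n K h
    obtain ⟨hn, hK, hVW⟩ := Pool.Agent.H16.PR.cls n K h'
    refine ⟨hK, Pool.Agent.H860R2.PP.A_PEX n hn K hK, fun P hP => ⟨?_, ?_⟩⟩
    · exact Pool.Agent.H16.PR.phi_ge hn K P hK hP hVW
    · have h1 := Pool.Agent.H16.PR.phi_eq_iff hn K P hK hP
      exact h1.trans ⟨fun h2 => Pool.Agent.H16.PR.cls_eq n K h' h2,
        fun h2 => Pool.Agent.H16.PR.par_VW hn K h2⟩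
  · intro a b ha hb
    exact Pool.Agent.H16.PR.inf_sub a b ha hb
  · intro n m hn hnm h
    exact Pool.Agent.H16.PR.inf_down n m hn hnm h
  · exact Pool.Agent.H16.PR.limit

end Pool.Agent.Results.MP_48ea53_gt.ProductsAndLimit
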